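import Pool.Agent.MP_d4f4ab_ag.Main

open Pool.Agent.MP_d4f4ab_ag

namespace Pool.Agent.Results.MP_d4f4ab_ag.DegreeBound

/-- Let `M` be a finite matroid of positive rank and `t ≥ 2`. If the rank or the corank of `M` is at most
`t + 1`, then the toric ideal of `M` is generated by its homogeneous elements of degree at most `t`. -/
theorem result (K : Type*) [Field K] {α : Type*} (M : Matroid α) [M.Finite] [M.RankPos]
    (t : ℕ) (ht : 2 ≤ t) (h : M.eRank ≤ t + 1 ∨ M✶.eRank ≤ t + 1) :
    toricIdeal K M = Ideal.span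
      {f : MvPolynomial (BaseOf M) K | f ∈ toricIdeal K M ∧ ∃ n ≤ t, f.IsHomogeneous n} :=
  (main K M).1 t ht h

end Pool.Agent.Results.MP_d4f4ab_ag.DegreeBound
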