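import Pool.Agent.MP_d4f4ab_ag.Main

open Pool.Agent.MP_d4f4ab_ag

namespace Pool.Agent.Results.MP_d4f4ab_ag.RankFour

/-- If the rank or the corank of a finite matroid `M` (of positive rank) is at most `4`, then the toric ideal
of `M` is generated by its homogeneous elements of degree `2`. -/
theorem result (K : Type*) [Field K] {α : Type*} (M : Matroid α) [M.Finite] [M.RankPos]
    (h : M.eRank ≤ 4 ∨ M✶.eRank ≤ 4) :
    toricIdeal K M = Ideal.span
      {f : MvPolynomial (BaseOf M) K | f ∈ toricIdeal K M ∧ f.IsHomogeneous 2} :=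
  (main K M).2 h

end Pool.Agent.Results.MP_d4f4ab_ag.RankFour
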