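import Pool.Agent.MP_d4f4ab_ag.W.Main2

open Pool.Agent.MP_d4f4ab_ag

namespace Pool.Agent.Results.MP_d4f4ab_ag.Representable

/-- Let `M` be a finite matroid (of positive rank) which is representable over some field `F`: a set of elements is
independent in `M` iff the corresponding vectors `v` are linearly independent. Then the toric ideal of `M` over any
field `K` is generated by quadrics. -/
theorem result (K : Type*) [Field K] {α : Type*} (M : Matroid α) [M.Finite] [M.RankPos]
    {F : Type*} [Field F] {V : Type*} [AddCommGroup V] [Module F V] (v : α → V)
    (hv : ∀ I ⊆ M.E, M.Indep I ↔ LinearIndepOn F v I) :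
    toricIdeal K M = Ideal.span
      {f : MvPolynomial (BaseOf M) K | f ∈ toricIdeal K M ∧ f.IsHomogeneous 2} :=
  W.main_all K M v hv

end Pool.Agent.Results.MP_d4f4ab_ag.Representable
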